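import Pool.Agent.helper38.OV.Pre
import Pool.Agent.helper85.OV.NHG
import Pool.Agent.helper43.OV.TRG
import Pool.Agent.helper21.OV.POS
import Pool.Agent.helper21.OV.EXP

/-!
# Project OV: density one in a residue class, closed theorems
-/

set_option autoImplicit false

namespace Pool.Agent.OV

open Finset Real Pool.Agent.AT Pool.Agent.helper85.FC Pool.Agent.OM

theorem nhg : NHG_stmt := NHG k4g cug OM.CNT log' avh klg

/-- density one in a residue class, for a positive proportion of the pairs of any set -/
theorem OMEGAS_all : OMEGAS := TRG nhg QPc_all

/-- a positive proportion of all pairs -/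
theorem OMPOS_all : OMPOS := POS OMEGAS_all

/-- a positive proportion of the powers of every pair -/
theorem OMEXP_all : OMEXP := EXP OMEGAS_all

end Pool.Agent.OV
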