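import Pool.Agent.helper38.OV.Spec
import Pool.Agent.helper38.OP.SHA
import Pool.Agent.helper38.AT.All
import Pool.Agent.helper65.OM.EEB
import Pool.Agent.helper65.OM.ORT
import Pool.Agent.helper65.OM.PA1
import Pool.Agent.helper65.OM.PA2
import Pool.Agent.helper65.OM.PHS
import Pool.Agent.helper65.OM.GEO
import Pool.Agent.helper93.OM.SHF
import Pool.Agent.helper93.OM.SML
import Pool.Agent.helper27.OM.SMO
import Pool.Agent.helper9.OM.CNT
import Pool.Agent.helper72.AT.PSY
import Pool.Agent.helper52.AT.ADV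
import Pool.Agent.helper53.OP.AV1
import Pool.Agent.helper65.OV.AR3
import Pool.Agent.helper49.OV.SM3
import Pool.Agent.helper27.OV.CS3
import Pool.Agent.helper84.OV.UF3
import Pool.Agent.helper43.OV.UB3
import Pool.Agent.helper90.OV.SD3
import Pool.Agent.helper39.OV.CU3
import Pool.Agent.helper65.OV.CUG
import Pool.Agent.helper89.OV.LOG
import Pool.Agent.helper21.OV.AVH
import Pool.Agent.helper79.OV.TYG
import Pool.Agent.helper78.OV.KLG
import Pool.Agent.helper64.OV.K4G

/-!
# Project OV: the rows put together, first part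
-/

set_option autoImplicit false

namespace Pool.Agent.OV

open Finset Real Pool.Agent.AT Pool.Agent.helper85.FC Pool.Agent.OM

theorem pa1 : OM.PA1_stmt := OM.PA1 OM.EEB (OM.ORT OM.EEB)

theorem geo : OM.GEO_stmt := OM.GEO OM.EEB

theorem cu3 : CU3_stmt :=
  CU3 (UB3 (SM3 geo AR3) (CS3 OM.SHF) (UF3 OM.EEB (OM.PA2 pa1) OM.SHF) geo (OM.SMO OM.EEB OM.SHF) (OM.PHS pa1))
    (SD3 OM.SHF OM.SML)

theorem cug : CUG_stmt := CUG cu3

theorem log' : LOG_stmt := LOG OP.SHAb

theorem avh : AVH_stmt := AVH OP.AV1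

theorem klg : KLG_stmt := KLG TYG

theorem k4g : K4G_stmt := K4G PSY ADV

end Pool.Agent.OV
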