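import Pool.Agent.helper38.OP.Spec

/-!
# Project OV (MP_bf63dc_nt, rows `ov:*`): a positive proportion of ALL pairs (a, b) with density one in a residue class

`Dens ε a b`: some residue class `s mod q` in which the `c`, `|c| ≤ X`, with infinitely many prime solutions of `b p - a p' = c` have upper
density at least `1 - ε`.
GOAL (`OMEGAS`). For `ε > 0` and `K` there are `L`, `δ > 0`, `lam > 0`: for all coprime `a ≤ lam b` and all finite sets `S` of positive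
integers with `s ≤ K s'` for all `s, s' ∈ S`: for at least `δ |S|²` pairs `(s, s') ∈ S²` there is `1 ≤ m < L` with `Dens ε A B`,
`A/B = (s/s') (a/b)^m` in lowest terms. COROLLARIES: `OMPOS`: for every `ε > 0` a positive proportion of all coprime pairs
`(a, b) ∈ [1, N]²` has `Dens ε a b` (`S = [n, 2n]`, `a = 1`). `OMEXP`: for all coprime `a ≠ b` the `m` with `Dens ε (a^m) (b^m)` have positive lower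
density `≥ δ(ε)` (`S = {1}`).

IDEA. Levels `(s, i)`, `s ∈ S`, `i < L`, slope `s a^i b^(L-i)`, points `x - z`, `x ∈ [0, Y)`, `Y = M N` (`z` an integer parameter; `z = Y/2` gives `|c| ≤ X`).
For `(s, i)`, `(s', j)`, `j < i`, `m = i - j`, the ratio of the slopes is `A_m/B_m = (s/s') (a/b)^m`; for EVERY fixed pair `(s, s')` the kernels
`W_m (B_m x - A_m y)` satisfy the cut norm lemma of project OP (CU3, for sequences `A_m`, `B_m` instead of `a^m`, `b^m`); the sum over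
`(s, s') ∈ S²` is trivial (CUG). The rest is as in OP, with a small set `E ⊆ S²` of exceptional pairs (loss `1/L + 2δ` instead of `1/L`).

RULES. Row `XX`: file `Pool/Agent/<seat>/OV/XX.lean`, `import Pool.Agent.helper38.OV.Spec`, `namespace Pool.Agent.OV`, `open Finset Real
Pool.Agent.AT Pool.Agent.helper85.FC Pool.Agent.OM`, `theorem XX (hYY : YY_stmt) ... : XX_stmt` (drop hypotheses you do not need), auxiliary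
lemmas prefixed `XX_`, other rows only as hypotheses (also rows of OM, OP: `(hGEO : OM.GEO_stmt)`, `(hAV1 : OP.AV1_stmt)`). Most rows are
copies of proofs of OM and OP rows with `a^m`, `b^m` replaced by `A m`, `B m`. No `convert`, no `congr!`, no `native_decide`, no straight
double quotes; `open Classical in` only before definitions.
-/

set_option autoImplicit false

namespace Pool.Agent.OV

open Finset Real Pool.Agent.AT Pool.Agent.helper85.FC Pool.Agent.OM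

/-! ## Definitions -/

/-- `A/B = (s/s') (a/b)^m` in lowest terms: numerator -/
def na (a b s s' m : ℕ) : ℕ := s * a ^ m / Nat.gcd (s * a ^ m) (s' * b ^ m)

/-- `A/B = (s/s') (a/b)^m` in lowest terms: denominator -/
def nb (a b s s' m : ℕ) : ℕ := s' * b ^ m / Nat.gcd (s * a ^ m) (s' * b ^ m)

open Classical in
/-- in some residue class `s mod q` the `c` which are true for `b, a` have upper density at least `1 - ε` (among the `c` with `|c| ≤ X`) -/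
def Dens (ε : ℝ) (a b : ℕ) : Prop := ∃ q s : ℕ, 1 ≤ q ∧ s < q ∧ ∀ X₀ : ℕ, ∃ X : ℕ, X₀ ≤ X ∧
  (1 - ε) * (2 * X) ≤ q * #{c ∈ Icc (-(X : ℤ)) (X : ℤ) | c % (q : ℤ) = s ∧ TrueCase b a c}

open Classical in
/-- THEOREM: density one in a residue class, for a positive proportion of the pairs of any set -/
def OMEGAS : Prop := ∀ ε : ℝ, 0 < ε → ∀ K : ℕ, 1 ≤ K → ∃ (L : ℕ) (δ lam : ℝ), 0 < δ ∧ 0 < lam ∧ ∀ a b : ℕ, 1 ≤ a → Nat.Coprime a b →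
  (a : ℝ) ≤ lam * b → ∀ S : Finset ℕ, (∀ s ∈ S, 1 ≤ s) → (∀ s ∈ S, ∀ s' ∈ S, s ≤ K * s') →
  δ * (#S : ℝ) ^ 2 ≤ #{t ∈ S ×ˢ S | ∃ m ∈ Ico 1 L, Dens ε (na a b t.1 t.2 m) (nb a b t.1 t.2 m)}

open Classical in
/-- COROLLARY: a positive proportion of all pairs -/
def OMPOS : Prop := ∀ ε : ℝ, 0 < ε → ∃ δ : ℝ, 0 < δ ∧ ∃ N₀ : ℕ, ∀ N : ℕ, N₀ ≤ N →
  δ * (N : ℝ) ^ 2 ≤ #{t ∈ Icc 1 N ×ˢ Icc 1 N | Nat.Coprime t.1 t.2 ∧ Dens ε t.1 t.2}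

open Classical in
/-- COROLLARY: a positive proportion of the powers of every pair -/
def OMEXP : Prop := ∀ ε : ℝ, 0 < ε → ∃ δ : ℝ, 0 < δ ∧ ∀ a b : ℕ, 1 ≤ a → 1 ≤ b → Nat.Coprime a b → a ≠ b →
  ∃ N₀ : ℕ, ∀ N : ℕ, N₀ ≤ N → δ * N ≤ #{m ∈ Icc 1 N | Dens ε (a ^ m) (b ^ m)}

/-- sequences of ratios `A m / B m`, `1 ≤ m < L`, which decrease fast; `M1` is a multiple of all determinants -/
def Sq (L : ℕ) (κ : ℝ) (A B : ℕ → ℕ) (M1 : ℕ) : Prop :=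
  1 ≤ L ∧ 0 < κ ∧ κ ≤ 1 ∧ 1 ≤ M1 ∧ (∀ m ∈ Ico 1 L, 1 ≤ A m ∧ 64 * √L * A m ≤ κ ^ 2 * B m) ∧
  (∀ m, 1 ≤ m → m + 1 < L → 64 * √L * (A (m + 1) * B m) ≤ κ ^ 2 * (A m * B (m + 1))) ∧
  ∀ m ∈ Ico 1 L, ∀ m' ∈ Ico 1 L, m < m' → ((A m : ℤ) * B m' - A m' * B m) ∣ M1

/-- the points `((s, i), x)` -/
def VG (S : Finset ℕ) (L Y : ℕ) : Finset ((ℕ × ℕ) × ℕ) := (S ×ˢ range L) ×ˢ range Y

/-- the symmetric kernel on the points given by the functions `w s s' m`; zero on equal levels `i` -/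
noncomputable def kg (a b : ℕ) (w : ℕ → ℕ → ℕ → ℤ → ℝ) (p p' : (ℕ × ℕ) × ℕ) : ℝ :=
  if p'.1.2 < p.1.2 then w p.1.1 p'.1.1 (p.1.2 - p'.1.2)
    ((nb a b p.1.1 p'.1.1 (p.1.2 - p'.1.2) : ℤ) * p.2 - (na a b p.1.1 p'.1.1 (p.1.2 - p'.1.2) : ℤ) * p'.2)
  else if p.1.2 < p'.1.2 then w p'.1.1 p.1.1 (p'.1.2 - p.1.2)
    ((nb a b p'.1.1 p.1.1 (p'.1.2 - p.1.2) : ℤ) * p'.2 - (na a b p'.1.1 p.1.1 (p'.1.2 - p.1.2) : ℤ) * p.2) else 0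

/-- the averages -/
noncomputable def PG (M : ℕ) (T : ℕ → ℕ → ℕ → ℕ) (w : ℕ → ℕ → ℕ → ℤ → ℝ) (s s' m : ℕ) (v : ℤ) : ℝ := sm M (T s s' m) (w s s' m) v

/-- a lower bound for `kg (PG ...)` at `p = ((s, i), x)`, `p' = ((s', j), y)`, `j < i`, which depends on `p'` only by `(s', j)` and `y % M` -/
noncomputable def fg (a b M : ℕ) (κ : ℝ) (T : ℕ → ℕ → ℕ → ℕ) (w : ℕ → ℕ → ℕ → ℤ → ℝ) (p p' : (ℕ × ℕ) × ℕ) : ℝ :=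
  max 0 (sm M (T p.1.1 p'.1.1 (p.1.2 - p'.1.2)) (w p.1.1 p'.1.1 (p.1.2 - p'.1.2))
    ((nb a b p.1.1 p'.1.1 (p.1.2 - p'.1.2) : ℤ) * p.2 - (na a b p.1.1 p'.1.1 (p.1.2 - p'.1.2) : ℤ) * (p'.2 % M : ℕ)) - 2 * κ)

open Classical in
/-- `1` if `B - A + H v` is not true for `B, A`, otherwise `0` -/
noncomputable def BG (H A B : ℕ) (v : ℤ) : ℝ := if TrueCase B A ((B : ℤ) - A + H * v) then 0 else 1

/-- the kernels, for the points `x - z` -/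
noncomputable def WG (H a b : ℕ) (z : ℤ) (s s' m : ℕ) (v : ℤ) : ℝ :=
  BG H (na a b s s' m) (nb a b s s' m) (v - ((nb a b s s' m : ℤ) - na a b s s' m) * z)

/-! ## Part A: the cut norm -/

/-- **AR3** (short-medium; pure).  `|a₁ α + b₁ β - n₁| ≤ ρ b₁`, `|a₂ α + b₂ β - n₂| ≤ ρ b₂`. `b₂` times the first minus `b₁` times the second:
`|D α - n| ≤ 2 ρ b₁ b₂` with `D = a₁ b₂ - a₂ b₁ ≥ a₁ b₂/2 > 0`. `M = D D'`, so `|M α - D' n| ≤ 2 ρ b₁ b₂ |D'|` and `|D'| a₁ b₂ ≤ 2 M`. -/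
def AR3_stmt : Prop := ∀ a₁ b₁ a₂ b₂ M : ℕ, 1 ≤ a₁ → 1 ≤ b₂ → 2 * (a₂ * b₁) ≤ a₁ * b₂ → ((a₁ : ℤ) * b₂ - a₂ * b₁) ∣ M →
  ∀ α β ρ : ℝ, 0 ≤ ρ → Near (a₁ * α + b₁ * β) (ρ * b₁) → Near (a₂ * α + b₂ * β) (ρ * b₂) → Near (M * α) (4 * M * ρ * b₁ / a₁)

/-- **SM3** (medium; from OM.GEO, AR3; the proof is that of `OP.SM2`).  `ρ = √L/Y`; call `m ∈ [1, L)` resonant if `Near (A m α + B m β) (ρ B m)`. If `m` is not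
resonant then `FD ≤ 1/(2 D_m ρ B_m)² ≤ 1/L` (GEO; `2 D_m B_m ≥ Y`), `w m ≤ 4`: together at most `4`. The smallest resonant `m₁`: at most `4`. Every
resonant `m > m₁`, `k = m - m₁ ≥ 1`: `A_m/B_m ≤ (κ²/(64 √L))^k A_(m₁)/B_(m₁)` (induction), by AR3 `Near (M1 α) (4 M1 ρ B_(m₁)/A_(m₁))`, so by the
hypotheses on `w` and `T m` `w m ≤ (2π T_m 4 M1 (√L/Y) B_(m₁)/A_(m₁))² ≤ (16 π √L κ⁻² (κ²/(64 √L))^k)² ≤ ((π/4) 64^(1-k))²`; the sum over `k ≥ 1` is at most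
`(π²/16) (1 + 1/4095) ≤ 1`. -/
def SM3_stmt : Prop := ∀ (L Y M1 : ℕ) (κ : ℝ) (A B : ℕ → ℕ), Sq L κ A B M1 → 1 ≤ Y → ∀ D T : ℕ → ℕ,
  (∀ m ∈ Ico 1 L, 1 ≤ D m ∧ Y ≤ 2 * (B m * D m)) →
  (∀ m ∈ Ico 1 L, κ ^ 2 * ((M1 : ℝ) * B m * T m) ≤ 2 * ((A m : ℝ) * Y)) →
  ∀ (α β : ℝ) (w : ℕ → ℝ), (∀ m ∈ Ico 1 L, 0 ≤ w m ∧ w m ≤ 4) →
  (∀ m ∈ Ico 1 L, ∀ ρ : ℝ, 0 ≤ ρ → Near (M1 * α) ρ → w m ≤ (2 * π * T m * ρ) ^ 2) →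
  ∑ m ∈ Ico 1 L, w m * FD (D m) ((A m : ℝ) * α + (B m : ℝ) * β) ≤ 9

/-- **CS3** (medium; from OM.SHF; the proof is that of `OP.CS2` with `A m`, `B m` instead of `a^m`, `b^m`). -/
def CS3_stmt : Prop := ∀ (L R₀ R Y : ℕ) (A B D : ℕ → ℕ), (∀ m ∈ Ico 1 L, 1 ≤ D m ∧ R₀ + A m * D m ≤ R ∧ R₀ + B m * D m ≤ R) →
  ∀ K : ℕ → ℤ → ℝ, (∀ m v, |K m v| ≤ 1) → ∀ (φ : ℕ → ℕ → ℤ → ℝ) (ψ : ℕ → ℤ → ℝ), (∀ m ∈ Ico 1 L, Sp R₀ Y (φ m)) → Sp R₀ Y ψ →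
  (∑ m ∈ Ico 1 L, ∑ x ∈ XX R Y, ∑ y ∈ XX R Y, K m ((B m : ℤ) * x - (A m : ℤ) * y) * gm L (φ m) ψ m x y) ^ 2 ≤
    L * ((Y : ℝ) + 2 * R) ^ 2 * ∑ m ∈ Ico 1 L, ∑ x ∈ XX R Y, ∑ y ∈ XX R Y,
      ((∑ d ∈ range (D m), gm L (φ m) ψ m (x + (A m : ℤ) * d) (y + (B m : ℤ) * d)) / D m) ^ 2

/-- **UF3** (medium; from OM.EEB, OM.PA2, OM.SHF; the proof is that of `OM.UFT`, Pool/Agent/helper34/OM/UFT.lean, with `a`, `b` instead of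
`a^m`, `b^m`). -/
def UF3_stmt : Prop := ∀ a b L D R₀ R Y Q m : ℕ, 1 ≤ D → 1 ≤ Q → Y + 2 * R ≤ Q → R₀ + a * D ≤ R → R₀ + b * D ≤ R →
  ∀ φ ψ : ℕ → ℤ → ℝ, Sp R₀ Y φ → Sp R₀ Y ψ →
  (Q : ℝ) ^ 2 * ∑ x ∈ XX R Y, ∑ y ∈ XX R Y,
      ((∑ d ∈ range D, gm L φ ψ m (x + (a : ℤ) * d) (y + (b : ℤ) * d)) / D) ^ 2 ≤
    ∑ k ∈ range Q, ∑ l ∈ range Q, Ph L (XX R Y) φ ((k : ℝ) / Q) * Ph L (XX R Y) ψ ((l : ℝ) / Q) *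
      FD D ((a : ℝ) * ((k : ℝ) / Q) + (b : ℝ) * ((l : ℝ) / Q))

/-- **UB3** (medium; from SM3, CS3, UF3, OM.GEO, OM.SMO, OM.PHS; the proof is that of `OP.UB2`).  `D m = Y / B m ≥ 1`, `R₀ = Y`, `R = 3Y`, `Q = 7Y`;
`A m ≤ B m ≤ Y`. -/
def UB3_stmt : Prop := ∀ (L Y M1 : ℕ) (κ : ℝ) (A B : ℕ → ℕ), Sq L κ A B M1 → 1 ≤ Y → ∀ T : ℕ → ℕ,
  (∀ m ∈ Ico 1 L, B m ≤ Y ∧ 1 ≤ T m ∧ M1 * T m ≤ Y ∧ κ ^ 2 * ((M1 : ℝ) * B m * T m) ≤ 2 * ((A m : ℝ) * Y)) →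
  ∀ (K φ ψ : ℕ → ℤ → ℝ), (∀ m v, |K m v| ≤ 1) → (∀ i x, |φ i x| ≤ 1) → (∀ i x, |ψ i x| ≤ 1) → Sp 0 Y φ → Sp 0 Y ψ →
  |∑ m ∈ Ico 1 L, ∑ x ∈ XX (3 * Y) Y, ∑ y ∈ XX (3 * Y) Y, K m ((B m : ℤ) * x - (A m : ℤ) * y) *
    gm L (fun i x => φ i x - sm M1 (T m) (φ i) x) ψ m x y| ≤ 21 * (L * √L) * (Y : ℝ) ^ 2

/-- **SD3** (medium; from OM.SHF, OM.SML; the proof is that of `OP.SD2`).  `M t = B_m M1 s` with `s = e_m t < e_m T_m ≤ κ T'_m`. -/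
def SD3_stmt : Prop := ∀ (L Y M1 M : ℕ) (κ : ℝ) (A B e T T' : ℕ → ℕ), 1 ≤ L → 0 < κ → κ ≤ 1 →
  (∀ m ∈ Ico 1 L, M = B m * M1 * e m ∧ 1 ≤ T m ∧ 1 ≤ T' m ∧ M1 * T' m ≤ Y ∧ (e m : ℝ) * T m ≤ κ * T' m) →
  ∀ (W φ ψ : ℕ → ℤ → ℝ), (∀ m v, 0 ≤ W m v ∧ W m v ≤ 1) → (∀ i x, |φ i x| ≤ 1) → (∀ i x, |ψ i x| ≤ 1) → Sp 0 Y φ → Sp 0 Y ψ →
  |∑ m ∈ Ico 1 L, ∑ x ∈ XX (3 * Y) Y, ∑ y ∈ XX (3 * Y) Y, (W m ((B m : ℤ) * x - (A m : ℤ) * y) -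
      sm M (T m) (W m) ((B m : ℤ) * x - (A m : ℤ) * y)) *
    gm L (fun i x => sm M1 (T' m) (φ i) x) ψ m x y| ≤ κ * (L : ℝ) ^ 2 * (Y : ℝ) ^ 2

/-- **CU3** (medium; from UB3, SD3).  If `[1, L)` is empty the sum is `0`. `e_m = M/(B_m M1)`, `T'_m = ⌈A_m Y/(κ² M1 B_m)⌉`: then
`e_m T_m = M T_m/(B_m M1) ≤ A_m Y/(κ B_m M1) ≤ κ T'_m`, `κ² M1 B_m T'_m ≤ A_m Y + κ² M1 B_m ≤ 2 A_m Y` and `M1 T'_m ≤ 2 A_m Y/(κ² B_m) ≤ Y`. Write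
`φ i = φˢ + φᵘ` (depending on `m`), `φˢ = sm M1 T'_m (φ i)`: SD3 for `φˢ` (`≤ κ L² Y²`), UB3 for `φᵘ` with `K = W - sm M T W` (for `m ∉ [1, L)` put `K = 0`)
(`≤ 21 L √L Y² = (21/√L) L² Y²`). -/
def CU3_stmt : Prop := ∀ (L Y M1 M : ℕ) (κ : ℝ) (A B T : ℕ → ℕ), Sq L κ A B M1 → 1 ≤ M →
  (∀ m ∈ Ico 1 L, B m * M1 ∣ M ∧ M1 * B m ≤ Y ∧ 1 ≤ T m ∧ κ * ((M : ℝ) * T m) ≤ (A m : ℝ) * Y) →
  ∀ (W φ ψ : ℕ → ℤ → ℝ), (∀ m v, 0 ≤ W m v ∧ W m v ≤ 1) → (∀ i x, |φ i x| ≤ 1) → (∀ i x, |ψ i x| ≤ 1) → Sp 0 Y φ → Sp 0 Y ψ →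
  |∑ m ∈ Ico 1 L, ∑ x ∈ XX (3 * Y) Y, ∑ y ∈ XX (3 * Y) Y, (W m ((B m : ℤ) * x - (A m : ℤ) * y) -
      sm M (T m) (W m) ((B m : ℤ) * x - (A m : ℤ) * y)) * gm L φ ψ m x y| ≤ (κ + 21 / √L) * ((L : ℝ) * Y) ^ 2

/-- **CUG** (medium; from CU3).  By the symmetry of `kg` (exchange `p` and `p'`) it is enough to show half the bound for the sum over the pairs
with `p'.1.2 < p.1.2`. For fixed `s, s' ∈ S` put `φ' i x = φ ((s, i), x)` for `i < L`, `0 ≤ x < Y`, otherwise `0`, `ψ' j y = ψ ((s', j), y)` in the same way: the sum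
over the `(i, x)`, `(j, y)`, `j < i`, is the sum of CU3 for `A = na a b s s'`, `B = nb a b s s'`, `W = w s s'` (`m = i - j`), so at most
`(κ + 21/√L) (L Y)²`; there are `|S|²` pairs `(s, s')`. -/
def CUG_stmt : Prop := ∀ (a b L M1 M Y : ℕ) (κ : ℝ) (S : Finset ℕ) (T : ℕ → ℕ → ℕ → ℕ), 1 ≤ M →
  (∀ s ∈ S, ∀ s' ∈ S, Sq L κ (na a b s s') (nb a b s s') M1 ∧ ∀ m ∈ Ico 1 L, nb a b s s' m * M1 ∣ M ∧
    M1 * nb a b s s' m ≤ Y ∧ 1 ≤ T s s' m ∧ κ * ((M : ℝ) * T s s' m) ≤ (na a b s s' m : ℝ) * Y) →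
  ∀ w : ℕ → ℕ → ℕ → ℤ → ℝ, (∀ s s' m v, 0 ≤ w s s' m v ∧ w s s' m v ≤ 1) →
  ∀ φ ψ : (ℕ × ℕ) × ℕ → ℝ, (∀ p, |φ p| ≤ 1) → (∀ p, |ψ p| ≤ 1) →
  |∑ p ∈ VG S L Y, ∑ p' ∈ VG S L Y, (kg a b w p p' - kg a b (PG M T w) p p') * φ p * ψ p'| ≤
    (2 * κ + 42 / √L) * ((#S : ℝ) * (L * Y)) ^ 2

/-! ## Part B: many cliques -/

/-- **LOG** (short-medium; from OP.SHA; the proof is that of `OP.LOW`).  `y = y % M + M (y / M)`, `B x - A (y % M) = (B x - A y) + M s`, `s = A (y / M) ≤ A Y/M ≤ 2 κ T`. -/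
def LOG_stmt : Prop := ∀ (a b L Y M : ℕ) (κ : ℝ) (S : Finset ℕ) (T : ℕ → ℕ → ℕ → ℕ), 1 ≤ M → 0 < κ →
  (∀ s ∈ S, ∀ s' ∈ S, ∀ m ∈ Ico 1 L, 1 ≤ T s s' m ∧ (na a b s s' m : ℝ) * Y ≤ 2 * κ * (M * T s s' m)) →
  ∀ w : ℕ → ℕ → ℕ → ℤ → ℝ, (∀ s s' m v, 0 ≤ w s s' m v ∧ w s s' m v ≤ 1) →
  ∀ p ∈ VG S L Y, ∀ p' ∈ VG S L Y, p'.1.2 < p.1.2 →
    0 ≤ fg a b M κ T w p p' ∧ fg a b M κ T w p p' ≤ 1 ∧ fg a b M κ T w p p' ≤ kg a b (PG M T w) p p'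

/-- **AVH** (medium; from OP.AV1; the proof is that of `OP.AVG`).  `y₀ = y % M`, `x = ρ + M x'`, `x' < N`; `B ρ - A y₀ = r + M z`, `0 ≤ r < M`, `|z| ≤ B` (as
`A ≤ B`). `sm M T w (B x - A y₀) = (1/T) ∑_t g (z + B x' + t)` with `g u = w (r + M u)`, and `∑_(u < B N) g u` is the sum of the `w v` with
`v < B M N`, `v % M = r`. AV1 with `β = B`: the sum over `x'` of the averages is at least `(ε - 3κ) N`; the `- 2κ` costs `2κ N`. -/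
def AVH_stmt : Prop := ∀ (A B M N T : ℕ) (κ ε : ℝ), A ≤ B → 1 ≤ B → 1 ≤ M → 0 < κ → κ ≤ 1 → 0 < ε → ε ≤ 1 → 1 ≤ T → (B : ℝ) ≤ κ * T →
  (T : ℝ) ≤ κ * ((B : ℝ) * N) → ∀ w : ℤ → ℝ, (∀ v, 0 ≤ w v ∧ w v ≤ 1) →
  (∀ r < M, ε * ((B : ℝ) * N) ≤ ∑ v ∈ range (B * (M * N)) with v % M = r, w v) → ∀ ρ < M, ∀ y : ℕ,
    (ε - 5 * κ) * N ≤ ∑ x ∈ range (M * N) with x % M = ρ, max 0 (sm M T w ((B : ℤ) * x - (A : ℤ) * (y % M : ℕ)) - 2 * κ)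

/-- **TYG** (short-medium; pure; as `OP.TYP`).  `Y = M N`, `n = |S| L Y`. For `p' = ((s', j), y)`, `i > j`, `s ∈ S` with `(s, s') ∉ E` and every `ρ` the sum over `x ≡ ρ` of
`c ((s, i), x) f ((s, i), x) p'` is at least `η` times the sum of `c ((s, i), x)` over `x ≡ ρ` (`c` is constant on this class of `N` elements). So the right side
is at least `η ∑ c p c p'` over the `p'.1.2 < p.1.2` with `(s, s') ∉ E`, that is at least `η ((1/2) ((∑ c)² - n²/L) - δ n²)`: the pairs on equal levels are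
`L (|S| Y)² = n²/L`, those with `(s, s') ∈ E` at most `δ |S|² L² Y²`. (The terms with `(s, s') ∈ E` on the right side are `≥ 0`.) -/
def TYG_stmt : Prop := ∀ (L M N : ℕ) (η δ : ℝ) (S : Finset ℕ) (E : Finset (ℕ × ℕ)), 1 ≤ L → 1 ≤ M → 0 < η → η ≤ 1 →
  (#E : ℝ) ≤ δ * (#S : ℝ) ^ 2 → ∀ f : (ℕ × ℕ) × ℕ → (ℕ × ℕ) × ℕ → ℝ,
  (∀ p ∈ VG S L (M * N), ∀ p' ∈ VG S L (M * N), p'.1.2 < p.1.2 → 0 ≤ f p p') →
  (∀ s ∈ S, ∀ s' ∈ S, (s, s') ∉ E → ∀ i < L, ∀ j < i, ∀ ρ < M, ∀ y < M * N,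
    η * N ≤ ∑ x ∈ range (M * N) with x % M = ρ, f ((s, i), x) ((s', j), y)) →
  ∀ c : (ℕ × ℕ) × ℕ → ℝ, (∀ p, 0 ≤ c p ∧ c p ≤ 1) → (∀ u y, c (u, y) = c (u, y % M)) →
  η / 2 * ((∑ p ∈ VG S L (M * N), c p) ^ 2 - (1 / L + 2 * δ) * ((#S : ℝ) * (L * (M * N))) ^ 2) ≤
    ∑ p ∈ VG S L (M * N), ∑ p' ∈ VG S L (M * N) with p'.1.2 < p.1.2, c p * c p' * f p p'

/-- **KLG** (medium; from TYG; the proof is that of `OP.K4L`).  `Y = M N`, `n = |S| L Y`, `θ = 1/L + 2δ`, `V = VG S L Y`, `g > h` means `h.1.2 < g.1.2`; all factors are `≥ 0`, so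
`K4 V U ≥ ∑_(g₁ > g₂ > g₃ > g₄)` of the product of the six `f`. (1) Fix `g₁ > g₂`; TYG for `c h = f g₁ h f g₂ h` (`h ∈ V`-type, `h < g₂`, else `0`): the sum over
`g₃ > g₄` is `≥ (η/2) ((∑_h c h)² - θ n²)`. (2) Multiply by `f g₁ g₂ ≤ 1`, sum over `g₂ < g₁`: by Cauchy-Schwarz (`∑ f g₁ g₂ ≤ n`)
`∑_(g₂) f g₁ g₂ (∑_(h < g₂) f g₁ h f g₂ h)² ≥ (1/n) (∑_(h < g₂ < g₁) f g₁ g₂ f g₁ h f g₂ h)²`, and by TYG for `c h = f g₁ h` (`h < g₁`, else `0`) the last sum is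
`≥ (η/2) (W² - θ n²)`, `W g₁ = ∑_(h < g₁) f g₁ h`. (3) Sum over `g₁`, Cauchy-Schwarz: `∑ (W² - θ n²)_+² ≥ (1/n) ((∑ W)²/n - θ n³)²` (if positive), and
`∑ W ≥ (η/2) (n² - θ n²) ≥ η n²/4` by TYG for `c = 1` (`θ ≤ 1/32`); so `(∑ W)²/n - θ n³ ≥ η² n³/32`. Together
`K4 ≥ (η/2) ((1/n) (η²/4) (1/n) (η² n³/32)² - θ n⁴) ≥ (η⁷/2^13 - θ) n⁴`. (The `c` must be in `[0, 1]` everywhere: put `c (u, y) = 0` if `u ∉ S ×ˢ range L`;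
`f p (u, y) = f p (u, y % M)`.) -/
def KLG_stmt : Prop := ∀ (L M N : ℕ) (η δ : ℝ) (S : Finset ℕ) (E : Finset (ℕ × ℕ)), S.Nonempty → 1 ≤ L → 1 ≤ M → 1 ≤ N → 0 < η → η ≤ 1 →
  0 ≤ δ → 32 * (1 / L + 2 * δ) ≤ η ^ 2 → (#E : ℝ) ≤ δ * (#S : ℝ) ^ 2 → ∀ U f : (ℕ × ℕ) × ℕ → (ℕ × ℕ) × ℕ → ℝ,
  (∀ p p', 0 ≤ U p p') → (∀ p ∈ VG S L (M * N), ∀ p' ∈ VG S L (M * N), p'.1.2 < p.1.2 → 0 ≤ f p p' ∧ f p p' ≤ 1 ∧ f p p' ≤ U p p') →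
  (∀ p u y, f p (u, y) = f p (u, y % M)) →
  (∀ s ∈ S, ∀ s' ∈ S, (s, s') ∉ E → ∀ i < L, ∀ j < i, ∀ ρ < M, ∀ y < M * N,
    η * N ≤ ∑ x ∈ range (M * N) with x % M = ρ, f ((s, i), x) ((s', j), y)) →
  (η ^ 7 / 2 ^ 13 - (1 / L + 2 * δ)) * ((#S : ℝ) * (L * (M * N))) ^ 4 ≤ K4 (VG S L (M * N)) U

/-! ## Part C: the end of the proof -/

/-- **K4G** (medium; from PSY, ADV of SpecX; the proof is that of `OM.K4B`, Pool/Agent/helper78/OM/K4B.lean).  Forms `f ((s, i), x) = (s a^i b^(L-i), 1 + H (x - z))`,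
injective on `VG S L Y`: for `j < i`, `m = i - j`, `s a^m < s' b^m` (`s a < s' b`, `a < b`), so different levels have different slopes, and on the same level
`s = s'`, `x = y` (`H ≥ 1`). Primitive, constant term prime to 6, as `6, a, b, s ∣ H`. For `p = ((s, i), x)`, `p' = ((s', j), y)`, `j < i`:
`gcd (s a^i b^(L-i)) (s' a^j b^(L-j)) = a^j b^(L-i) gcd (s a^m) (s' b^m)`, the quotients are `na`, `nb`, and `Pair (f p) (f p')` is `TrueCase nb na c` with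
`c = nb (1 + H (x - z)) - na (1 + H (y - z)) = nb - na + H ((nb x - na y) - (nb - na) z)`. -/
def K4G_stmt : Prop := QPc → ∃ C δ : ℝ, 0 < C ∧ 0 < δ ∧ ∀ (a b L Y H : ℕ) (z : ℤ) (S : Finset ℕ), 1 ≤ a → Nat.Coprime a b → 1 ≤ L → 1 ≤ Y →
  S.Nonempty → (∀ s ∈ S, 1 ≤ s) → (∀ s ∈ S, ∀ s' ∈ S, s * a < s' * b) → 1 ≤ H → 6 ∣ H → a ∣ H → b ∣ H → (∀ s ∈ S, s ∣ H) →
  K4 (VG S L Y) (kg a b (WG H a b z)) ≤ C * ((#S : ℝ) * (L * Y)) ^ 4 * ((#S : ℝ) * (L * Y)) ^ (-δ)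

/-- **NHG** (medium; from K4G, CUG, OM.CNT, LOG, AVH, KLG; as `OP.NHR`).  `ε ≤ 1` without loss. `κ = ε⁷/2^26` (so `5κ ≤ ε/2`), `δ = ε⁷/2^26`, `L` so large that
`1/L + 252/√L ≤ ε⁷/2^23`, `lam = κ²/(64 √L K)`. `M1` = the product over all `s, s' ∈ S`, `m < m'` in `[1, L)` of `|na m nb m' - na m' nb m|` (not `0`, since
`na m/nb m = (s/s') (a/b)^m`), `M = M1` times the product of all `nb s s' m`; `Y = M N`, `T s s' m = ⌊na N/κ⌋` (natural floor). `Sq` holds: `na/nb ≤ K (a/b)^m ≤ K lam`,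
`(na/nb) (m+1) = (a/b) (na/nb) m`. For large `N` (in terms of everything else) the hypotheses of CUG, LOG and AVH hold (`T ≥ na N/(2κ) ≥ nb/κ`;
`T ≤ na N/κ ≤ κ nb N` as `na ≤ κ² nb`; `M1 nb ≤ M N` as `M1 nb ∣ M`). Suppose that the set `E` on the right side has fewer than `δ |S|²` elements: KLG with
`η = ε/2`, `U = kg a b (PG M T (WG H a b z))`, `f = fg` (AVH outside `E`) gives `K4 U ≥ (ε⁷/2^20 - (1/L + 2δ)) n⁴`, `n = |S| L Y`. CNT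
(`E = (2κ + 42/√L) n²`, CUG) and K4G: `K4 U ≤ C n⁴ n^(-δ') + (12 κ + 252/√L) n⁴`. A contradiction for large `N`. -/
def NHG_stmt : Prop := QPc → ∀ ε : ℝ, 0 < ε → ∀ K : ℕ, 1 ≤ K → ∃ (L : ℕ) (δ lam : ℝ), 0 < δ ∧ 0 < lam ∧ ∀ a b : ℕ, 1 ≤ a → Nat.Coprime a b →
  (a : ℝ) ≤ lam * b → ∀ S : Finset ℕ, S.Nonempty → (∀ s ∈ S, 1 ≤ s) → (∀ s ∈ S, ∀ s' ∈ S, s ≤ K * s') →
  ∀ H : ℕ, 1 ≤ H → 6 ∣ H → a ∣ H → b ∣ H → (∀ s ∈ S, s ∣ H) → ∃ M N₀ : ℕ, 1 ≤ M ∧ ∀ N : ℕ, N₀ ≤ N → ∀ z : ℤ,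
  δ * (#S : ℝ) ^ 2 ≤ #{t ∈ S ×ˢ S | ∃ m ∈ Ico 1 L, ∃ r < M,
    ∑ v ∈ range (nb a b t.1 t.2 m * (M * N)) with v % M = r, WG H a b z t.1 t.2 m v < ε * ((nb a b t.1 t.2 m : ℝ) * N)}

/-- **TRG** (medium; from NHG).  `ε ≤ 1` without loss, `S` nonempty without loss. NHG with `ε/4` gives `L`, `δ`, `lam₀`; `lam = min lam₀ (ε/(4K))`. `H = 6ab ∏_(s ∈ S) s`. Take
`N = 2N'`, `z = M N'`. For `t = (s, s')`, `m`, `r` in the set of NHG, `A = na`, `B = nb` (`A ≤ (ε/4) B`): the `v < B M N`, `v ≡ r (mod M)`, with `WG = 0` are at least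
`(1 - ε/4) 2 B N'`; `v' = v - (B - A) z ≡ r (mod M)`, `- (B - A) z ≤ v' < (B + A) z`, and `c = B - A + H v'` is true for `B, A`, `|c| ≤ X = B + H (B + A) z`,
`c ≡ B - A + H r =: s₀ (mod q)`, `q = H M`. So `q #{...} ≥ (1 - ε/4) 2 H B z ≥ (1 - ε) 2 X` for large `N'`. For every large `N'` this gives a set
`E ⊆ S ×ˢ S` with at least `δ |S|²` elements and a function `t ↦ (m, r)` on `E`; there are finitely many possibilities, so one of them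
occurs for infinitely many `N'`, and `Dens ε (na ..) (nb ..)` for all `t ∈ E`. -/
def TRG_stmt : Prop := QPc → OMEGAS

/-- **POS** (medium; from OMEGAS).  `K = 2`, `a = 1`, `b = ⌈1/lam⌉` (so `1 ≤ lam b`; `b ≥ 1`). For `N` put `n = ⌊N/(2 b^L)⌋ ≥ 1`, `S = Icc n (2n)`; `na ≤ 2n ≤ N`,
`nb ≤ 2 n b^L ≤ N`; `na`, `nb` are coprime and `≥ 1`. OMEGAS: at least `δ n²` pairs `(s, s')`. The pairs with `gcd(s, s') > G` are at most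
`∑_(G < g ≤ 2n) (n/g + 1)² ≤ ∑_(g > G) 9 n²/g² ≤ 9 n²/G ≤ (δ/2) n²` for `G = ⌈18/δ⌉`. On the others the map `(s, s') ↦ (na, nb)` (with a chosen `m`) is at most
`G L` to one: `m` and `(na, nb)` give `s/s' = (na/nb) b^m`, and `s/s'` and `gcd(s, s') ≤ G` give `(s, s')`. So at least
`(δ/(2 G L)) n² ≥ δ' N²` pairs. -/
def POS_stmt : Prop := OMEGAS → OMPOS

/-- **EXP** (short-medium; from OMEGAS).  `K = 1`, `S = {1}`. First `a < b`: `r₀ ≥ 1` with `(a/b)^r ≤ lam` for `r ≥ r₀`; OMEGAS for `(a^r, b^r)`: since `δ > 0` the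
set is not empty, so some `1 ≤ m < L` has `Dens ε (a^(rm)) (b^(rm))` (`na (a^r) (b^r) 1 1 m = a^(rm)`). Then count as in `OM.OMD`
(Pool/Agent/helper4/OM/OMD.lean): at least `(N/L - r₀)/L ≥ N/(2 L²) ` good exponents for `N ≥ N₀`. `a > b`: `Dens ε a b ↔ Dens ε b a` (`c ↦ -c`, class `-s mod q`;
`TrueCase.symm` of Pool/Agent/helper85/FC/Cor.lean). -/
def EXP_stmt : Prop := OMEGAS → OMEXP

end Pool.Agent.OV
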